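import Pool.Agent.Helper28_TP.DyS

/-!
# Measurability (module MEAS)
-/

set_option autoImplicit false

namespace Pool.Agent.TP.H9

open MeasureTheory ProbabilityTheory

variable {k : ℕ}

theorem measurable_pos (i : ℕ) (v : Pt k × ℕ) : Measurable (fun ω : Cf k => pos ω i v) := by
  refine measurable_pi_lambda _ fun a => ?_
  unfold pos walk
  have h0 : Measurable (fun ω : Cf k => (ω v.1).2 v.2) :=
    (measurable_pi_apply v.2).comp (measurable_snd.comp (measurable_pi_apply v.1))
  have h1 : Measurable (fun ω : Cf k => ((ω v.1).2 v.2).1 a) :=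
    (measurable_pi_apply a).comp (measurable_fst.comp h0)
  have h2 : ∀ j : ℕ, Measurable (fun ω : Cf k => ((ω v.1).2 v.2).2 j a) := fun j =>
    (measurable_pi_apply a).comp ((measurable_pi_apply j).comp (measurable_snd.comp h0))
  exact (measurable_const.add h1).add (Finset.measurable_fun_sum _ fun j _ => h2 j)

theorem measurableSet_alive (v : Pt k × ℕ) : MeasurableSet {ω : Cf k | alive ω v} := by
  have h0 : Measurable (fun ω : Cf k => (ω v.1).1) :=
    measurable_fst.comp (measurable_pi_apply v.1)
  exact measurableSet_lt measurable_const h0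

theorem measurableSet_cube_prod : MeasurableSet {x : Sp k × (Sp k × ℝ) | x.1 ∈ cube x.2.1 x.2.2} := by
  have : {x : Sp k × (Sp k × ℝ) | x.1 ∈ cube x.2.1 x.2.2} =
      ⋂ a, ({x : Sp k × (Sp k × ℝ) | x.2.1 a ≤ x.1 a} ∩ {x | x.1 a < x.2.1 a + x.2.2}) := by
    ext x
    simp [cube]
  rw [this]
  refine MeasurableSet.iInter fun a => ?_
  refine (measurableSet_le ?_ ?_).inter (measurableSet_lt ?_ ?_) <;> fun_prop

theorem measurableSet_cube (y : Sp k) (κ : ℝ) : MeasurableSet (cube y κ) := by
  have : cube y κ = (fun x : Sp k => (x, (y, κ))) ⁻¹' {x : Sp k × (Sp k × ℝ) | x.1 ∈ cube x.2.1 x.2.2} := by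
    ext x
    simp
  rw [this]
  exact (by fun_prop : Measurable (fun x : Sp k => (x, (y, κ)))) measurableSet_cube_prod

theorem meas : MeasStmt := by
  intro k
  have hlast : ∀ (h : ℝ) (i : ℕ) (c : Pt k),
      MeasurableSet {x : Cf k × Sp k | c ∈ occ h x.2 i x.1} := by
    intro h i c
    have : {x : Cf k × Sp k | c ∈ occ h x.2 i x.1} =
        ⋃ v : Pt k × ℕ, ({x : Cf k × Sp k | alive x.1 v} ∩
          {x | pos x.1 i v ∈ cel h x.2 c}) := by
      ext x
      simp [occ]
    rw [this]
    refine MeasurableSet.iUnion fun v => ?_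
    refine (measurable_fst (measurableSet_alive v)).inter ?_
    have hm : Measurable (fun x : Cf k × Sp k =>
        ((pos x.1 i v, ((fun a => x.2 a + h * c a), h)) : Sp k × (Sp k × ℝ))) := by
      refine ((measurable_pos i v).comp measurable_fst).prodMk (Measurable.prodMk ?_ measurable_const)
      refine measurable_pi_lambda _ fun a => ?_
      exact ((measurable_pi_apply a).comp measurable_snd).add measurable_const
    exact hm measurableSet_cube_prod
  have hfirst : ∀ (h : ℝ) (w : Sp k) (i : ℕ) (c : Pt k),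
      MeasurableSet {ω : Cf k | c ∈ occ h w i ω} := fun h w i c =>
    (measurable_prodMk_right (y := w)) (hlast h i c)
  refine ⟨hfirst, ?_, ?_, hlast⟩
  · intro y κ i M
    have : {ω : Cf k | many y κ i ω M} =
        ⋃ F : Finset (Pt k × ℕ), {ω : Cf k | M ≤ F.card ∧ ∀ v ∈ F, alive ω v ∧ pos ω i v ∈ cube y κ} := by
      ext ω
      simp [many]
    rw [this]
    refine MeasurableSet.iUnion fun F => ?_
    by_cases hM : M ≤ F.card
    · have : {ω : Cf k | M ≤ F.card ∧ ∀ v ∈ F, alive ω v ∧ pos ω i v ∈ cube y κ} =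
          ⋂ v ∈ F, ({ω : Cf k | alive ω v} ∩ {ω | pos ω i v ∈ cube y κ}) := by
        ext ω
        simp [hM]
      rw [this]
      exact Finset.measurableSet_biInter F fun v _ =>
        (measurableSet_alive v).inter (measurable_pos i v (measurableSet_cube y κ))
    · have : {ω : Cf k | M ≤ F.card ∧ ∀ v ∈ F, alive ω v ∧ pos ω i v ∈ cube y κ} = ∅ := by
        ext ω
        simp [hM]
      rw [this]
      exact MeasurableSet.empty
  · intro h w i R E hE
    have hset : {ω : Cf k | E (occ h w i ω)} =
        ⋃ S ∈ (bx (0 : Pt k) R).powerset, {ω : Cf k | E ↑S ∧ ∀ c ∈ bx (0 : Pt k) R,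
          (c ∈ occ h w i ω ↔ c ∈ S)} := by
      classical
      ext ω
      simp only [Set.mem_ofPred_eq, Set.mem_iUnion, exists_prop]
      constructor
      · intro hω
        refine ⟨(bx (0 : Pt k) R).filter (fun c => c ∈ occ h w i ω),
          Finset.mem_powerset.2 (Finset.filter_subset _ _), ?_, ?_⟩
        · rw [hE.2] at hω
          convert hω using 1
          ext c
          simp [and_comm]
        · intro c hc
          simp [hc]
      · rintro ⟨S, hS, hES, hc⟩
        rw [hE.2]
        convert hES using 1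
        ext c
        simp only [Set.mem_inter_iff, Finset.mem_coe]
        constructor
        · rintro ⟨h1, h2⟩
          exact (hc c h2).1 h1
        · intro h1
          have h2 := Finset.mem_powerset.1 hS h1
          exact ⟨(hc c h2).2 h1, h2⟩
    rw [hset]
    refine Finset.measurableSet_biUnion _ fun S _ => ?_
    by_cases hES : E ↑S
    · have : {ω : Cf k | E ↑S ∧ ∀ c ∈ bx (0 : Pt k) R, (c ∈ occ h w i ω ↔ c ∈ S)} =
          ⋂ c ∈ bx (0 : Pt k) R, {ω : Cf k | c ∈ occ h w i ω ↔ c ∈ S} := by
        ext ω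
        simp [hES]
      rw [this]
      refine Finset.measurableSet_biInter _ fun c _ => ?_
      by_cases hcS : c ∈ S
      · have h2 : {ω : Cf k | c ∈ occ h w i ω ↔ c ∈ S} = {ω : Cf k | c ∈ occ h w i ω} := by
          ext ω
          simp [hcS]
        rw [h2]
        exact hfirst h w i c
      · have h2 : {ω : Cf k | c ∈ occ h w i ω ↔ c ∈ S} = {ω : Cf k | c ∈ occ h w i ω}ᶜ := by
          ext ω
          simp [hcS]
        rw [h2]
        exact (hfirst h w i c).compl
    · have : {ω : Cf k | E ↑S ∧ ∀ c ∈ bx (0 : Pt k) R, (c ∈ occ h w i ω ↔ c ∈ S)} = ∅ := by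
        ext ω
        simp [hES]
      rw [this]
      exact MeasurableSet.empty

end Pool.Agent.TP.H9
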