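import Pool.Agent.Helper28_TP.DyS
import Pool.Agent.Helper28_TP.Inst

/-!
# The lower bound (module LOW)
-/

set_option autoImplicit false

namespace Pool.Agent.TP.H9

open MeasureTheory ProbabilityTheory

variable {k : ℕ}

/-- Trajectories that come near the target before time `t`. -/
def vis (k : ℕ) (r : ℝ) (t : ℕ) : Set ((Sp k × (ℕ → Sp k)) × (ℕ → Sp k)) :=
  {p | ∃ i < t, near r (walk p.1.1 p.1.2 i) (walk 0 p.2 i)}

theorem measurableSet_near (r : ℝ) : MeasurableSet {x : Sp k × Sp k | near r x.1 x.2} := by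
  unfold near
  refine measurableSet_le ?_ measurable_const
  fun_prop

theorem measurableSet_vis (k : ℕ) (r : ℝ) (t : ℕ) : MeasurableSet (vis k r t) := by
  have : vis k r t = ⋃ i ∈ Finset.range t,
      {p : (Sp k × (ℕ → Sp k)) × (ℕ → Sp k) | near r (walk p.1.1 p.1.2 i) (walk 0 p.2 i)} := by
    ext p
    simp [vis]
  rw [this]
  refine Finset.measurableSet_biUnion _ fun i _ => ?_
  have h1 : Measurable (fun p : (Sp k × (ℕ → Sp k)) × (ℕ → Sp k) =>
      (walk p.1.1 p.1.2 i, walk (0 : Sp k) p.2 i)) :=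
    (measurable_walk' (measurable_fst.comp measurable_fst) (measurable_snd.comp measurable_fst)
      i).prodMk (measurable_walk' measurable_const measurable_snd i)
  exact h1 (measurableSet_near r)

/-- A target without neighbours is isolated. -/
theorem not_inInf {r : ℝ} {ω : Cf k} {w : Sp k} {i : ℕ}
    (h : ∀ v, alive ω v → ¬ near r (pos ω i v) w) : ¬ InInf (graphWith r ω w i) none := by
  intro hinf
  refine hinf ?_
  have hno : ∀ u, ¬ (graphWith r ω w i).Adj none u := by
    intro u hu
    unfold graphWith geo at hu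
    rw [SimpleGraph.fromRel_adj] at hu
    obtain ⟨hne, hu⟩ := hu
    cases u with
    | none => exact hne rfl
    | some v =>
      have hsym : near r w (pos ω i v) → near r (pos ω i v) w := by
        intro h1
        unfold near at h1 ⊢
        refine le_trans (le_of_eq ?_) h1
        exact Finset.sum_congr rfl fun a _ => by ring
      rcases hu with ⟨_, h2, h3⟩ | ⟨h2, _, h3⟩
      · exact h v (h2 v rfl) (hsym h3)
      · exact h v (h2 v rfl) h3
  refine Set.Finite.subset (Set.finite_singleton none) ?_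
  intro u hu
  obtain ⟨p⟩ := hu
  cases p with
  | nil => rfl
  | cons hadj _ => exact absurd hadj (hno _)

theorem le_Tperc {r : ℝ} {ω : Cf k} {y : ℕ → Sp k} {t : ℕ}
    (h : ∀ v, alive ω v →
      (((fun a => (v.1 a : ℝ) + ((ω v.1).2 v.2).1 a, ((ω v.1).2 v.2).2) :
        Sp k × (ℕ → Sp k)), y) ∉ vis k r t) : (t : ℕ∞) ≤ Tperc r ω y := by
  unfold Tperc
  refine le_sInf ?_
  rintro x ⟨i, hi, rfl⟩
  by_contra hlt
  have hlt' : i < t := by
    have := not_le.1 hlt
    exact_mod_cast this
  refine not_inInf (r := r) (ω := ω) (w := walk 0 y i) (i := i) ?_ hi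
  intro v hv hn
  exact h v hv ⟨i, hlt', hn⟩

theorem expo_nonneg (k t : ℕ) (ht : 2 ≤ t) : 0 ≤ expo k t := by
  unfold expo
  split_ifs
  · refine div_nonneg (Nat.cast_nonneg t) (Real.log_nonneg ?_)
    have : (2 : ℝ) ≤ t := by exact_mod_cast ht
    linarith
  · exact Nat.cast_nonneg t

theorem low (hV : VoidStmt) (hS : SauStmt) : LowStmt := by
  intro k r lam s hr hlam hs
  obtain ⟨C, hC, hSau⟩ := hS k r s hr hs
  refine ⟨lam * C, mul_pos hlam hC, ?_⟩
  intro t ht
  have hSt := hSau t ht
  -- the mean number of nodes that come near the target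
  set m : (ℕ → Sp k) → ENNReal := fun y => ∫⁻ x, walkLaw k s
    {y' | ∃ i < t, near r (walk x y' i) (walk 0 y i)} with hm
  have hvis := measurableSet_vis k r t
  have hmeas : Measurable m := by
    have h1 : MeasurableSet {q : ((ℕ → Sp k) × Sp k) × (ℕ → Sp k) |
        ((q.1.2, q.2), q.1.1) ∈ vis k r t} := by
      have h2 : Measurable (fun q : ((ℕ → Sp k) × Sp k) × (ℕ → Sp k) =>
          (((q.1.2, q.2), q.1.1) : (Sp k × (ℕ → Sp k)) × (ℕ → Sp k))) := by fun_prop
      exact h2 hvis
    have h3 : Measurable (fun q : (ℕ → Sp k) × Sp k => walkLaw k s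
        {y' | ((q.2, y'), q.1) ∈ vis k r t}) := measurable_measure_prodMk_left h1
    exact h3.lintegral_prod_right'
  have hle : ∫⁻ y, m y ∂(walkLaw k s) ≤ ENNReal.ofReal (C * expo k t) := hSt
  have hfin : ∫⁻ y, m y ∂(walkLaw k s) ≠ ⊤ := ne_top_of_le_ne_top ENNReal.ofReal_ne_top hle
  have hae : ∀ᵐ y ∂(walkLaw k s), m y < ⊤ := ae_lt_top hmeas hfin
  -- the event
  set S : Set (Cf k × (ℕ → Sp k)) := {x | ∀ v, alive x.1 v →
      (((fun a => (v.1 a : ℝ) + ((x.1 v.1).2 v.2).1 a, ((x.1 v.1).2 v.2).2) :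
        Sp k × (ℕ → Sp k)), x.2) ∉ vis k r t} with hSdef
  have hSm : MeasurableSet S := by
    have : S = ⋂ v : Pt k × ℕ, ({x : Cf k × (ℕ → Sp k) | alive x.1 v} ∩
        {x | (((fun a => (v.1 a : ℝ) + ((x.1 v.1).2 v.2).1 a, ((x.1 v.1).2 v.2).2) :
        Sp k × (ℕ → Sp k)), x.2) ∈ vis k r t})ᶜ := by
      ext x
      simp [hSdef]
    rw [this]
    refine MeasurableSet.iInter fun v => MeasurableSet.compl ?_
    refine (measurable_fst (measurableSet_alive v)).inter ?_
    have h2 : Measurable (fun x : Cf k × (ℕ → Sp k) =>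
        ((((fun a => (v.1 a : ℝ) + ((x.1 v.1).2 v.2).1 a, ((x.1 v.1).2 v.2).2) :
        Sp k × (ℕ → Sp k)), x.2) : (Sp k × (ℕ → Sp k)) × (ℕ → Sp k))) := by
      refine Measurable.prodMk (Measurable.prodMk ?_ ?_) measurable_snd
      · exact (measurable_start v).comp measurable_fst
      · exact (measurable_steps v).comp measurable_fst
    exact h2 hvis
  have hprod : ((confLaw k lam s).prod (walkLaw k s)) S =
      ∫⁻ y, ENNReal.ofReal (Real.exp (-(lam * (m y).toReal))) ∂(walkLaw k s) := by
    rw [Measure.prod_apply_symm hSm]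
    refine lintegral_congr_ae ?_
    filter_upwards [hae] with y hy
    have hA : MeasurableSet {p : Sp k × (ℕ → Sp k) | (p, y) ∈ vis k r t} :=
      (measurable_prodMk_right (y := y)) hvis
    have h1 := hV k lam s hlam.le {p : Sp k × (ℕ → Sp k) | (p, y) ∈ vis k r t} hA hy.ne
    exact h1
  have hint1 : Integrable (fun y => (m y).toReal) (walkLaw k s) :=
    integrable_toReal_of_lintegral_ne_top hmeas.aemeasurable hfin
  have hint2 : Integrable (fun y => -(lam * (m y).toReal)) (walkLaw k s) :=
    (hint1.const_mul lam).neg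
  have hint3 : Integrable (fun y => Real.exp (-(lam * (m y).toReal))) (walkLaw k s) := by
    refine Integrable.of_bound (C := 1) ?_ ?_
    · exact (Real.measurable_exp.comp
        ((hmeas.ennreal_toReal.const_mul lam).neg)).aestronglyMeasurable
    · refine Filter.Eventually.of_forall fun y => ?_
      rw [Real.norm_eq_abs, abs_of_pos (Real.exp_pos _), Real.exp_le_one_iff]
      have : 0 ≤ lam * (m y).toReal := mul_nonneg hlam.le ENNReal.toReal_nonneg
      linarith
  have hJ : Real.exp (∫ y, -(lam * (m y).toReal) ∂(walkLaw k s)) ≤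
      ∫ y, Real.exp (-(lam * (m y).toReal)) ∂(walkLaw k s) :=
    convexOn_exp.map_integral_le Real.continuous_exp.continuousOn isClosed_univ
      (Filter.Eventually.of_forall fun _ => Set.mem_univ _) hint2 hint3
  have hmean : ∫ y, (m y).toReal ∂(walkLaw k s) ≤ C * expo k t := by
    rw [integral_toReal hmeas.aemeasurable hae]
    refine ENNReal.toReal_le_of_le_ofReal ?_ hle
    exact mul_nonneg hC.le (expo_nonneg k t ht)
  have hmean' : -(lam * C * expo k t) ≤ ∫ y, -(lam * (m y).toReal) ∂(walkLaw k s) := by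
    rw [integral_neg, integral_const_mul]
    have := mul_le_mul_of_nonneg_left hmean hlam.le
    linarith
  have hsub : S ⊆ {x : Cf k × (ℕ → Sp k) | (t : ℕ∞) ≤ Tperc r x.1 x.2} := by
    intro x hx
    exact le_Tperc hx
  calc Real.exp (-(lam * C * expo k t))
      ≤ Real.exp (∫ y, -(lam * (m y).toReal) ∂(walkLaw k s)) := Real.exp_le_exp.2 hmean'
    _ ≤ ∫ y, Real.exp (-(lam * (m y).toReal)) ∂(walkLaw k s) := hJ
    _ = ((confLaw k lam s).prod (walkLaw k s)).real S := by
        rw [Measure.real, hprod, ← ofReal_integral_eq_lintegral_ofReal hint3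
          (Filter.Eventually.of_forall fun _ => (Real.exp_pos _).le), ENNReal.toReal_ofReal]
        exact integral_nonneg fun _ => (Real.exp_pos _).le
    _ ≤ tail k r lam s t := measureReal_mono hsub

end Pool.Agent.TP.H9
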